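import Pool.Agent.X39.Near.Logs
import Pool.Agent.X39.Near.DepInt

/-!
# Roy's question on skew-symmetric matrices for ALL rational numbers close to any number outside a set of dimension zero

The question is whether a skew-symmetric `4 × 4` matrix of rank at most `2` whose entries are logarithms of algebraic numbers
has rows which are linearly dependent over `ℚ`, or a nonzero rational vector in its column space. We prove, outside ONE set
`E` of real numbers of Hausdorff dimension `0` (for all systems of polynomials and scales), that this holds for the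
matrices `M = ∑_k log |p_k (z)| S_k`, for ALL rational numbers `z` close to a number outside `E` and ALL skew-symmetric
integral matrices `S_1, …, S_s` with entries of absolute value at most `T ^ A`, where `T` bounds the height of `z` and
`p_1, …, p_s` are rational polynomials which are multiplicatively independent modulo constants.

Proof: if the rank is at most `2` then the Pfaffian vanishes. It is a quadratic form in the numbers `log |p_k (z)|` with
integral coefficients of polynomial size; by `Pool.Agent.X39.Near.Logs.logs` the form is zero. So the `S_k` span a totally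
isotropic space for the wedge product on `∧² ℚ⁴`, and these are classified: they have a common vector in the kernel, or a
common vector in the column spaces.
-/

set_option autoImplicit false

open Matrix

namespace Pool.Agent.Results.MP_3e7261_nt.ApproximationsOfAllNumbers


variable {R : Type} [Field R]

/-- skew-symmetric matrix -/
def sk (a b c d e f : R) : Matrix (Fin 4) (Fin 4) R :=
  !![0, a, b, c; -a, 0, d, e; -b, -d, 0, f; -c, -e, -f, 0]

/-- the dual -/
def st (A : Matrix (Fin 4) (Fin 4) R) : Matrix (Fin 4) (Fin 4) R :=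
  !![0, A 2 3, -A 1 3, A 1 2; -A 2 3, 0, A 0 3, -A 0 2; A 1 3, -A 0 3, 0, A 0 1; -A 1 2, A 0 2, -A 0 1, 0]

/-- the polarisation of the Pfaffian -/
def pf2 (A B : Matrix (Fin 4) (Fin 4) R) : R :=
  A 0 1 * B 2 3 + A 2 3 * B 0 1 - A 0 2 * B 1 3 - A 1 3 * B 0 2 + A 0 3 * B 1 2 + A 1 2 * B 0 3

/-- skew -/
def Sk (A : Matrix (Fin 4) (Fin 4) R) : Prop := ∀ i j, A i j = - A j i

theorem Sk.diag [CharZero R] {A : Matrix (Fin 4) (Fin 4) R} (h : Sk A) (i : Fin 4) : A i i = 0 := by
  have h1 := h i i
  have h2 : (2 : R) * A i i = 0 := by linear_combination h1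
  exact (mul_eq_zero.1 h2).resolve_left two_ne_zero

theorem Sk.eq [CharZero R] {A : Matrix (Fin 4) (Fin 4) R} (h : Sk A) :
    A = sk (A 0 1) (A 0 2) (A 0 3) (A 1 2) (A 1 3) (A 2 3) := by
  ext i j
  fin_cases i <;> fin_cases j
  · exact h.diag 0
  · rfl
  · rfl
  · rfl
  · exact h 1 0
  · exact h.diag 1
  · rfl
  · rfl
  · exact h 2 0
  · exact h 2 1
  · exact h.diag 2
  · rfl
  · exact h 3 0
  · exact h 3 1
  · exact h 3 2
  · exact h.diag 3

theorem st_skew (A : Matrix (Fin 4) (Fin 4) R) : (st A)ᵀ = - st A := by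
  ext i j
  fin_cases i <;> fin_cases j <;> simp [st]

theorem i1 [CharZero R] {A B : Matrix (Fin 4) (Fin 4) R} (hA : Sk A) (hB : Sk B) (h : pf2 A B = 0) :
    A * st B = - (B * st A) := by
  rw [hA.eq, hB.eq] at h ⊢
  simp only [pf2, sk] at h
  ext i j
  fin_cases i <;> fin_cases j <;> simp [sk, st, Matrix.mul_apply, Fin.sum_univ_four] at h ⊢ <;>
    first | ring1 | linear_combination h | linear_combination -h

theorem i2 [CharZero R] {A B : Matrix (Fin 4) (Fin 4) R} (hA : Sk A) (hB : Sk B) (h : pf2 A B = 0) :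
    st A * B = - (st B * A) := by
  have h1 := congrArg Matrix.transpose (i1 hB hA (by rw [pf2] at h ⊢; linear_combination h))
  rw [Matrix.transpose_mul, Matrix.transpose_neg, Matrix.transpose_mul, st_skew, st_skew] at h1
  have hA' : Aᵀ = -A := by ext i j; exact hA j i
  have hB' : Bᵀ = -B := by ext i j; exact hB j i
  rw [hA', hB'] at h1
  simpa using h1

set_option maxHeartbeats 4000000 in
/-- minors of `A` -/
theorem plu [CharZero R] {A : Matrix (Fin 4) (Fin 4) R} (hA : Sk A) (h : pf2 A A = 0) (a b p q : Fin 4) :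
    A a p * A b q - A a q * A b p = A a b * A p q := by
  rw [hA.eq] at h ⊢
  simp only [pf2, sk] at h
  fin_cases a <;> fin_cases b <;> fin_cases p <;> fin_cases q <;> simp [sk] at h ⊢ <;>
    first | ring1 | linear_combination (1/2 : R) * h | linear_combination -(1/2 : R) * h


/-- rank one -/
theorem minor [CharZero R] {A B : Matrix (Fin 4) (Fin 4) R} (hA : Sk A) (hB : Sk B) (hAA : pf2 A A = 0)
    (hBB : pf2 B B = 0) (h : pf2 A B = 0) (a b c d : Fin 4) :
    (A * st B) a c * (A * st B) b d = (A * st B) a d * (A * st B) b c := by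
  have hsB : ∀ i j, st B i j = - st B j i := fun i j => by
    have := congrFun (congrFun (st_skew B) j) i
    simpa using this
  have hB2 : pf2 (st B) (st B) = 0 := by
    simp only [pf2, st] at hBB ⊢
    simp
    linear_combination hBB
  have h1 := plu hA hAA
  have h2 := plu (A := st B) hsB hB2
  have h3 : ∑ p, ∑ q, A p q * st B p q = 0 := by
    simp only [Fin.sum_univ_four]
    have hd := hA.diag
    rw [hA 1 0, hA 2 0, hA 3 0, hA 2 1, hA 3 1, hA 3 2, hsB 1 0, hsB 2 0, hsB 3 0, hsB 2 1, hsB 3 1, hsB 3 2,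
      hd 0, hd 1, hd 2, hd 3]
    simp only [pf2] at h
    simp [st]
    linear_combination 2 * h
  have e : ∀ x y : Fin 4, (A * st B) x y = ∑ p, A x p * st B p y := fun x y => Matrix.mul_apply
  have h4 : (A * st B) a c * (A * st B) b d - (A * st B) a d * (A * st B) b c =
      ∑ p, ∑ q, A a p * A b q * (st B p q * st B c d) := by
    rw [e, e, e, e, Finset.sum_mul_sum, Finset.sum_mul_sum, ← Finset.sum_sub_distrib]
    refine Finset.sum_congr rfl fun p _ => ?_
    rw [← Finset.sum_sub_distrib]
    refine Finset.sum_congr rfl fun q _ => ?_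
    rw [← h2]
    ring
  have h5 : ∑ p, ∑ q, A a p * A b q * (st B p q * st B c d) = - ∑ p, ∑ q, A a q * A b p * (st B p q * st B c d) := by
    rw [Finset.sum_comm, ← Finset.sum_neg_distrib]
    refine Finset.sum_congr rfl fun p _ => ?_
    rw [← Finset.sum_neg_distrib]
    refine Finset.sum_congr rfl fun q _ => ?_
    rw [hsB q p]
    ring
  have h6 : 2 * ∑ p, ∑ q, A a p * A b q * (st B p q * st B c d) = A a b * st B c d * ∑ p, ∑ q, A p q * st B p q := by
    rw [two_mul]
    nth_rw 2 [h5]
    rw [← sub_eq_add_neg, ← Finset.sum_sub_distrib, Finset.mul_sum]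
    refine Finset.sum_congr rfl fun p _ => ?_
    rw [← Finset.sum_sub_distrib, Finset.mul_sum]
    refine Finset.sum_congr rfl fun q _ => ?_
    linear_combination (st B p q * st B c d) * h1 a b p q
  rw [h3, mul_zero] at h6
  have h7 := (mul_eq_zero.1 h6).resolve_left two_ne_zero
  rw [h7] at h4
  linear_combination h4

theorem tsym [CharZero R] {D A B : Matrix (Fin 4) (Fin 4) R} (hD : Sk D) (hA : Sk A) (hB : Sk B)
    (hDA : pf2 D A = 0) (hDB : pf2 D B = 0) (hAB : pf2 A B = 0) :
    (st D * (A * st B))ᵀ = st D * (A * st B) := by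
  have hA' : Aᵀ = -A := by ext i j; exact hA j i
  have e1 : (st D * (A * st B))ᵀ = - (st B * (A * st D)) := by
    rw [Matrix.transpose_mul, Matrix.transpose_mul, st_skew, st_skew, hA']
    simp [Matrix.mul_assoc]
  rw [e1, i1 hA hD (by rw [pf2] at hDA ⊢; linear_combination hDA), Matrix.mul_neg, neg_neg, ← Matrix.mul_assoc,
    i2 hB hD (by rw [pf2] at hDB ⊢; linear_combination hDB), Matrix.neg_mul, Matrix.mul_assoc,
    i1 hB hA (by rw [pf2] at hAB ⊢; linear_combination hAB), Matrix.mul_neg, neg_neg]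

theorem tsym' [CharZero R] {D A B : Matrix (Fin 4) (Fin 4) R} (hD : Sk D) (hA : Sk A) (hB : Sk B)
    (hDA : pf2 D A = 0) (hDB : pf2 D B = 0) (hAB : pf2 A B = 0) :
    ((A * st B) * D)ᵀ = (A * st B) * D := by
  have hA' : Aᵀ = -A := by ext i j; exact hA j i
  have hD' : Dᵀ = -D := by ext i j; exact hD j i
  have e1 : ((A * st B) * D)ᵀ = - (D * (st B * A)) := by
    rw [Matrix.transpose_mul, Matrix.transpose_mul, st_skew, hD', hA']
    simp [Matrix.mul_assoc]
  rw [e1, ← Matrix.mul_assoc, i1 hD hB hDB, Matrix.neg_mul, neg_neg, Matrix.mul_assoc, i2 hD hA hDA, Matrix.mul_neg,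
    ← Matrix.mul_assoc, i1 hB hA (by rw [pf2] at hAB ⊢; linear_combination hAB), Matrix.neg_mul, neg_neg]

/-- **The classification of the isotropic families.** -/
theorem classify [CharZero R] {K : Type} (S : K → Matrix (Fin 4) (Fin 4) R) (hS : ∀ k, Sk (S k))
    (h : ∀ k l, pf2 (S k) (S l) = 0) :
    (∃ q : Fin 4 → R, q ≠ 0 ∧ ∀ k, S k *ᵥ q = 0) ∨ ∃ v : Fin 4 → R, v ≠ 0 ∧ ∀ k, st (S k) *ᵥ v = 0 := by
  by_cases hC : ∀ k l, S k * st (S l) = 0
  · left
    by_cases hz : ∀ l, st (S l) = 0
    · refine ⟨fun _ => 1, fun h0 => one_ne_zero (congrFun h0 0), fun k => ?_⟩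
      have h1 : S k = 0 := by
        have h2 := hz k
        rw [(hS k).eq]
        have e : ∀ i j, st (S k) i j = 0 := fun i j => by rw [h2]; rfl
        have a1 := e 0 1
        have a2 := e 0 2
        have a3 := e 0 3
        have a4 := e 1 2
        have a5 := e 1 3
        have a6 := e 2 3
        simp [st] at a1 a2 a3 a4 a5 a6
        ext i j
        fin_cases i <;> fin_cases j <;> simp [sk, a1, a2, a3, a4, a5, a6]
      rw [h1, Matrix.zero_mulVec]
    · push Not at hz
      obtain ⟨l, hl⟩ := hz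
      obtain ⟨j, hj⟩ : ∃ j, (fun i => st (S l) i j) ≠ 0 := by
        by_contra hcon
        push Not at hcon
        exact hl (by ext i j; exact congrFun (hcon j) i)
      refine ⟨fun i => st (S l) i j, hj, fun k => ?_⟩
      funext r
      have := congrFun (congrFun (hC k l) r) j
      rw [Matrix.mul_apply] at this
      exact this
  · push Not at hC
    obtain ⟨k, l, hkl⟩ := hC
    set C := S k * st (S l) with hCd
    obtain ⟨i, j, hij⟩ : ∃ i j, C i j ≠ 0 := by
      by_contra hcon
      push Not at hcon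
      exact hkl (by ext i j; exact hcon i j)
    have hmin : ∀ a b c d, C a c * C b d = C a d * C b c := minor (hS k) (hS l) (h k k) (h l l) (h k l)
    set v : Fin 4 → R := fun r => C r j with hv
    set q : Fin 4 → R := fun r => C i r with hq
    have hv0 : v ≠ 0 := fun h0 => hij (congrFun h0 i)
    have hq0 : q ≠ 0 := fun h0 => hij (congrFun h0 j)
    have hc : ∀ m, ∃ c : R, st (S m) *ᵥ v = c • q := by
      intro m
      have hT := tsym (hS m) (hS k) (hS l) (h m k) (h m l) (h k l)
      rw [← hCd] at hT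
      set T := st (S m) * C with hTd
      have hs : ∀ a b, T a b = T b a := fun a b => congrFun (congrFun hT b) a
      refine ⟨T j j / C i j, ?_⟩
      funext r
      have e1 : (st (S m) *ᵥ v) r = T r j := by
        rw [hTd, Matrix.mul_apply]
        rfl
      have e2 : T j j * C i r = T j r * C i j := by
        rw [hTd, Matrix.mul_apply, Matrix.mul_apply, Finset.sum_mul, Finset.sum_mul]
        refine Finset.sum_congr rfl fun a _ => ?_
        linear_combination (st (S m) j a) * hmin a i j r
      rw [e1, Pi.smul_apply, smul_eq_mul, hq, hs r j]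
      field_simp
      linear_combination -e2
    have hc' : ∀ m, ∃ c : R, S m *ᵥ q = c • v := by
      intro m
      have hT := tsym' (hS m) (hS k) (hS l) (h m k) (h m l) (h k l)
      rw [← hCd] at hT
      set T := C * S m with hTd
      have hs : ∀ a b, T a b = T b a := fun a b => congrFun (congrFun hT b) a
      refine ⟨- T i i / C i j, ?_⟩
      funext r
      have e1 : (S m *ᵥ q) r = - T i r := by
        rw [hTd, Matrix.mul_apply, ← Finset.sum_neg_distrib]
        show ∑ a, S m r a * C i a = _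
        refine Finset.sum_congr rfl fun a _ => ?_
        rw [hS m r a]
        ring
      have e2 : T i i * C r j = T r i * C i j := by
        rw [hTd, Matrix.mul_apply, Matrix.mul_apply, Finset.sum_mul, Finset.sum_mul]
        refine Finset.sum_congr rfl fun a _ => ?_
        linear_combination (S m a i) * hmin i r a j
      rw [e1, Pi.smul_apply, smul_eq_mul, hv, hs i r]
      field_simp
      linear_combination e2
    choose c hc using hc
    choose c' hc' using hc'
    have hrel : ∀ m n, c n * c' m + c m * c' n = 0 := by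
      intro m n
      have h1 := i1 (hS m) (hS n) (h m n)
      have h2 : S m *ᵥ (st (S n) *ᵥ v) = - (S n *ᵥ (st (S m) *ᵥ v)) := by
        rw [Matrix.mulVec_mulVec, Matrix.mulVec_mulVec, h1, Matrix.neg_mulVec]
      rw [hc, hc, Matrix.mulVec_smul, Matrix.mulVec_smul, hc', hc'] at h2
      have h3 := congrFun h2 i
      simp only [Pi.smul_apply, smul_eq_mul, Pi.neg_apply] at h3
      have h4 : (c n * c' m + c m * c' n) * C i j = 0 := by
        show (c n * c' m + c m * c' n) * v i = 0
        linear_combination h3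
      exact (mul_eq_zero.1 h4).resolve_right hij
    by_cases h0 : ∀ m, c' m = 0
    · left
      exact ⟨q, hq0, fun m => by rw [hc', h0, zero_smul]⟩
    · right
      push Not at h0
      obtain ⟨m, hm⟩ := h0
      have hcm : c m = 0 := by
        have := hrel m m
        have h2 : (2 : R) * (c m * c' m) = 0 := by linear_combination this
        exact (mul_eq_zero.1 ((mul_eq_zero.1 h2).resolve_left two_ne_zero)).resolve_right hm
      refine ⟨v, hv0, fun n => ?_⟩
      have h3 := hrel m n
      rw [hcm, zero_mul, add_zero] at h3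
      rw [hc, (mul_eq_zero.1 h3).resolve_right hm, zero_smul]


/-- `det M` is the square of the Pfaffian. -/
theorem det_sk [CharZero R] {A : Matrix (Fin 4) (Fin 4) R} (h : Sk A) :
    A.det = (A 0 1 * A 2 3 - A 0 2 * A 1 3 + A 0 3 * A 1 2) ^ 2 := by
  rw [h.eq]
  simp [sk, Matrix.det_succ_row_zero, Fin.sum_univ_succ, Fin.succAbove]
  ring

/-- the relation between three entries -/
theorem three [CharZero R] {A : Matrix (Fin 4) (Fin 4) R} (h : Sk A) {v : Fin 4 → R} (hv : st A *ᵥ v = 0) (r s t : Fin 4) :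
    A r s * v t + A s t * v r + A t r * v s = 0 := by
  have h0 := congrFun hv 0
  have h1 := congrFun hv 1
  have h2 := congrFun hv 2
  have h3 := congrFun hv 3
  simp [Matrix.mulVec, dotProduct, Fin.sum_univ_four, st] at h0 h1 h2 h3
  rw [h.eq]
  fin_cases r <;> fin_cases s <;> fin_cases t <;> simp [sk] <;>
    first | ring1 | linear_combination h0 | linear_combination -h0 | linear_combination h1 | linear_combination -h1 |
      linear_combination h2 | linear_combination -h2 | linear_combination h3 | linear_combination -h3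

/-- The rational polynomials `p_1, …, p_s` are multiplicatively independent modulo constants. -/
def Independent {s : ℕ} (p : Fin s → Polynomial ℚ) : Prop :=
  ∀ (m n : Fin s → ℕ) (c : ℚ), ∏ k, p k ^ m k = Polynomial.C c * ∏ k, p k ^ n k → m = n

/-- the matrix `∑_k log |p_k (z)| S_k` -/
noncomputable def mat {s : ℕ} (p : Fin s → Polynomial ℚ) (S : Fin s → Matrix (Fin 4) (Fin 4) ℤ) (z : ℚ) :
    Matrix (Fin 4) (Fin 4) ℂ :=
  fun i j => ∑ k, ((Real.log |((p k).eval z : ℚ)| : ℝ) : ℂ) * (S k i j : ℂ)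

/-- The rows of `M` are linearly dependent over `ℚ`, or a nonzero rational vector is in the column space of `M`. -/
def RoyHolds (M : Matrix (Fin 4) (Fin 4) ℂ) : Prop :=
  (∃ q : Fin 4 → ℚ, q ≠ 0 ∧ (fun i => ((q i : ℚ) : ℂ)) ᵥ* M = 0) ∨
    ∃ v : Fin 4 → ℚ, v ≠ 0 ∧ ∃ y : Fin 4 → ℂ, M *ᵥ y = fun i => ((v i : ℚ) : ℂ)

/-- the coefficients of the Pfaffian -/
def cc {s : ℕ} (S : Fin s → Matrix (Fin 4) (Fin 4) ℤ) (k l : Fin s) : ℤ :=
  S k 0 1 * S l 2 3 - S k 0 2 * S l 1 3 + S k 0 3 * S l 1 2

/-- the Pfaffian as a polynomial -/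
noncomputable def pfp {s : ℕ} (S : Fin s → Matrix (Fin 4) (Fin 4) ℤ) : MvPolynomial (Fin s) ℤ :=
  ∑ k, ∑ l, MvPolynomial.C (cc S k l) * (MvPolynomial.X k * MvPolynomial.X l)

theorem aeval_pfp {s : ℕ} (S : Fin s → Matrix (Fin 4) (Fin 4) ℤ) {R' : Type} [CommRing R'] (v : Fin s → R') :
    MvPolynomial.aeval v (pfp S) = ∑ k, ∑ l, (cc S k l : R') * (v k * v l) := by
  simp [pfp]

theorem pfp_deg {s : ℕ} (S : Fin s → Matrix (Fin 4) (Fin 4) ℤ) (j : Fin s) : (pfp S).degreeOf j ≤ 2 := by
  classical
  refine (MvPolynomial.degreeOf_sum_le _ _ _).trans (Finset.sup_le fun k _ => ?_)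
  refine (MvPolynomial.degreeOf_sum_le _ _ _).trans (Finset.sup_le fun l _ => ?_)
  refine (MvPolynomial.degreeOf_mul_le _ _ _).trans ?_
  rw [MvPolynomial.degreeOf_C, zero_add]
  refine (MvPolynomial.degreeOf_mul_le _ _ _).trans ?_
  rw [MvPolynomial.degreeOf_X, MvPolynomial.degreeOf_X]
  split_ifs <;> omega

theorem pfp_coeff {s : ℕ} (S : Fin s → Matrix (Fin 4) (Fin 4) ℤ) {X : ℝ} (hX : ∀ k l, |((cc S k l : ℤ) : ℝ)| ≤ X) (e) :
    |(((pfp S).coeff e : ℤ) : ℝ)| ≤ (s : ℝ) ^ 2 * X := by
  classical
  have h0 : (((pfp S).coeff e : ℤ) : ℝ) = ∑ k, ∑ l, ((cc S k l : ℤ) : ℝ) *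
      (((MvPolynomial.X k * MvPolynomial.X l : MvPolynomial (Fin s) ℤ).coeff e : ℤ) : ℝ) := by
    rw [pfp, MvPolynomial.coeff_sum]
    push_cast
    refine Finset.sum_congr rfl fun k _ => ?_
    rw [MvPolynomial.coeff_sum]
    push_cast
    refine Finset.sum_congr rfl fun l _ => ?_
    rw [MvPolynomial.coeff_C_mul]
    push_cast
    rfl
  have h1 : ∀ k l, |(((MvPolynomial.X k * MvPolynomial.X l : MvPolynomial (Fin s) ℤ).coeff e : ℤ) : ℝ)| ≤ 1 := by
    intro k l
    have h2 : (MvPolynomial.X k * MvPolynomial.X l : MvPolynomial (Fin s) ℤ) =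
        MvPolynomial.monomial (Finsupp.single k 1 + Finsupp.single l 1) 1 := by
      rw [MvPolynomial.X, MvPolynomial.X, MvPolynomial.monomial_mul, one_mul]
    rw [h2, MvPolynomial.coeff_monomial]
    split_ifs <;> simp
  rw [h0]
  refine (Finset.abs_sum_le_sum_abs _ _).trans ?_
  have h3 : ∀ k ∈ (Finset.univ : Finset (Fin s)), |∑ l, ((cc S k l : ℤ) : ℝ) *
      (((MvPolynomial.X k * MvPolynomial.X l : MvPolynomial (Fin s) ℤ).coeff e : ℤ) : ℝ)| ≤ (s : ℝ) * X := by
    intro k _
    refine (Finset.abs_sum_le_sum_abs _ _).trans ?_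
    have h4 : ∀ l ∈ (Finset.univ : Finset (Fin s)), |((cc S k l : ℤ) : ℝ) *
      (((MvPolynomial.X k * MvPolynomial.X l : MvPolynomial (Fin s) ℤ).coeff e : ℤ) : ℝ)| ≤ X := by
      intro l _
      rw [abs_mul]
      exact (mul_le_of_le_one_right (abs_nonneg _) (h1 k l)).trans (hX k l)
    refine (Finset.sum_le_card_nsmul _ _ _ h4).trans ?_
    simp
  refine (Finset.sum_le_card_nsmul _ _ _ h3).trans ?_
  simp [sq, mul_assoc]

/-- **Theorem.** There is a set `E` of real numbers of Hausdorff dimension `0` such that for all real `x ∉ E`, all rational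
polynomials `p_1, …, p_s` which are multiplicatively independent modulo constants, all `A` and `ω > 0` there is `T₁` such that
for all `T ≥ T₁`, all rational `z` of height at most `T` with `|z - x| ≤ T ^ (-ω)` and all skew-symmetric integral matrices
`S_1, …, S_s` with entries of absolute value at most `T ^ A`: the `p_k (z)` are not zero, and if the rank of
`M = ∑_k log |p_k (z)| S_k` is at most `2`, then the rows of `M` are linearly dependent over `ℚ` or a nonzero rational vector is
in the column space of `M`. -/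
theorem result : ∃ E : Set ℝ, dimH E = 0 ∧ ∀ x : ℝ, x ∉ E → ∀ (s : ℕ) (p : Fin s → Polynomial ℚ), Independent p →
    ∀ (A : ℕ) (ω : ℝ), 0 < ω → ∃ T₁ : ℝ, ∀ T : ℝ, T₁ ≤ T →
      ∀ z : ℚ, |(z.num : ℝ)| ≤ T → (z.den : ℝ) ≤ T → |(z : ℝ) - x| ≤ T ^ (-ω) →
      ∀ S : Fin s → Matrix (Fin 4) (Fin 4) ℤ, (∀ k, (S k)ᵀ = - S k) → (∀ k i j, |(S k i j : ℝ)| ≤ T ^ A) →
        (∀ k, (p k).eval z ≠ 0) ∧ ((mat p S z).rank ≤ 2 → RoyHolds (mat p S z)) := by
  classical
  obtain ⟨E, hE, H⟩ := Pool.Agent.X39.Near.Logs.logs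
  refine ⟨E, hE, fun x hx s p hp A ω hω => ?_⟩
  obtain ⟨e, He⟩ := H x hx s 0 p (fun k => k.elim0) hp
  obtain ⟨B, T₁, hT₁, HB⟩ := He 2 (2 * A + 1) ω hω
  refine ⟨max T₁ (3 * (s : ℝ) ^ 2 + 1), fun T hT z hz1 hz2 hzx S hS hSA => ?_⟩
  have hTT : T₁ ≤ T := (le_max_left _ _).trans hT
  have hTs : 3 * (s : ℝ) ^ 2 + 1 ≤ T := (le_max_right _ _).trans hT
  have hT1 : 1 ≤ T := hT₁.trans hTT
  have hT0 : 0 < T := by linarith
  obtain ⟨h1, h2⟩ := HB T hTT z hz1 hz2 hzx
  refine ⟨fun k => (h1 k).1, fun hrk => ?_⟩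
  set v : Fin s → ℂ := fun k => ((Real.log |((p k).eval z : ℚ)| : ℝ) : ℂ) with hv
  have hSk : ∀ k i j, S k i j = - S k j i := fun k i j => congrFun (congrFun (hS k) j) i
  have hM : Sk (mat p S z) := by
    intro i j
    rw [mat, mat, ← Finset.sum_neg_distrib]
    refine Finset.sum_congr rfl fun k _ => ?_
    rw [hSk k i j]
    push_cast
    ring
  -- the Pfaffian vanishes
  have hdet : (mat p S z).det = 0 := by
    by_contra hne
    have hu : IsUnit (mat p S z) := (Matrix.isUnit_iff_isUnit_det _).2 (isUnit_iff_ne_zero.2 hne)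
    have := Matrix.rank_of_isUnit _ hu
    rw [this] at hrk
    simp at hrk
  rw [det_sk hM] at hdet
  have hpf := pow_eq_zero_iff (two_ne_zero) |>.1 hdet
  have hval : MvPolynomial.aeval v (pfp S) = 0 := by
    rw [aeval_pfp, ← hpf]
    simp only [mat, Finset.sum_mul_sum]
    rw [← Finset.sum_sub_distrib, ← Finset.sum_add_distrib]
    refine Finset.sum_congr rfl fun k _ => ?_
    rw [← Finset.sum_sub_distrib, ← Finset.sum_add_distrib]
    refine Finset.sum_congr rfl fun l _ => ?_
    rw [cc]
    push_cast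
    ring
  have hP0 : pfp S = 0 := by
    by_contra hne
    have h3 : ¬ Pool.Agent.X39.Near.Dep v (fun b : Fin 0 => ((Real.log ((fun k : Fin 0 => (k.elim0 : ℚ)) b) : ℝ) : ℂ)) ℚ
        (algebraMap ℚ ℂ) 2 ((2 * A + 1 : ℕ) : ℝ) B T := by
      intro hcon
      exact h2 (hcon.dependent (fun j => ((h1 j).2).symm) hT0.le)
    have h4 := Pool.Agent.X39.Near.int_of_not_dep h3 hT0 (pfp S) hne (pfp_deg S) (fun e => by
      rw [Real.rpow_natCast]
      have hcc : ∀ k l, |((cc S k l : ℤ) : ℝ)| ≤ 3 * (T ^ A * T ^ A) := by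
        intro k l
        rw [cc]
        push_cast
        have hm : ∀ a b c d : Fin 4, |(S k a b : ℝ) * (S l c d : ℝ)| ≤ T ^ A * T ^ A := fun a b c d => by
          rw [abs_mul]
          exact mul_le_mul (hSA k a b) (hSA l c d) (abs_nonneg _) (by positivity)
        have a1 := abs_le.1 (hm 0 1 2 3)
        have a2 := abs_le.1 (hm 0 2 1 3)
        have a3 := abs_le.1 (hm 0 3 1 2)
        rw [abs_le]
        constructor <;> linarith [a1.1, a1.2, a2.1, a2.2, a3.1, a3.2]
      refine (pfp_coeff S hcc e).trans ?_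
      calc (s : ℝ) ^ 2 * (3 * (T ^ A * T ^ A)) = (3 * (s : ℝ) ^ 2) * (T ^ A * T ^ A) := by ring
        _ ≤ T * (T ^ A * T ^ A) := mul_le_mul_of_nonneg_right (by linarith) (by positivity)
        _ = T ^ (2 * A + 1) := by ring)
    rw [hval, norm_zero] at h4
    exact absurd h4 (not_lt.2 (Real.rpow_nonneg hT0.le _))
  -- the family is isotropic
  set SQ : Fin s → Matrix (Fin 4) (Fin 4) ℚ := fun k i j => (S k i j : ℚ) with hSQ
  have hcc2 : ∀ k l, (cc S k l : ℚ) + cc S l k = 0 := by
    have hq : ∀ w : Fin s → ℚ, ∑ k, ∑ l, (cc S k l : ℚ) * (w k * w l) = 0 := fun w => by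
      rw [← aeval_pfp, hP0, map_zero]
    have hs1 : ∀ k, (cc S k k : ℚ) = 0 := by
      intro k
      have := hq (Pi.single k 1)
      simpa [Pi.single_apply] using this
    intro k l
    by_cases hkl : k = l
    · rw [hkl, hs1]
      ring
    · have := hq (Pi.single k 1 + Pi.single l 1)
      simp only [Pi.add_apply, Pi.single_apply, mul_add, add_mul, Finset.sum_add_distrib] at this
      simp [hs1] at this
      linear_combination this
  have hiso : ∀ k l, pf2 (SQ k) (SQ l) = 0 := by
    intro k l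
    have := hcc2 k l
    rw [cc, cc] at this
    push_cast at this
    rw [pf2]
    simp only [hSQ]
    linear_combination this
  rcases classify SQ (fun k i j => by simp only [hSQ]; rw [hSk k i j]; push_cast; ring) hiso with ⟨q, hq, hqS⟩ | ⟨w, hw, hwS⟩
  · left
    refine ⟨q, hq, ?_⟩
    funext j
    show ∑ i, ((q i : ℚ) : ℂ) * ∑ k, v k * (S k i j : ℂ) = 0
    simp only [Finset.mul_sum]
    rw [Finset.sum_comm]
    refine Finset.sum_eq_zero fun k _ => ?_
    have h5 : ∑ i, (S k j i : ℚ) * q i = 0 := congrFun (hqS k) j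
    have h6 : ∑ i, (S k j i : ℂ) * ((q i : ℚ) : ℂ) = 0 := by exact_mod_cast congrArg (fun t : ℚ => (t : ℂ)) h5
    calc ∑ i, ((q i : ℚ) : ℂ) * (v k * (S k i j : ℂ)) = -(v k * ∑ i, (S k j i : ℂ) * ((q i : ℚ) : ℂ)) := by
          rw [Finset.mul_sum, ← Finset.sum_neg_distrib]
          refine Finset.sum_congr rfl fun i _ => ?_
          rw [hSk k i j]
          push_cast
          ring
      _ = 0 := by rw [h6]; ring
  · by_cases hz : mat p S z = 0
    · left
      refine ⟨fun _ => 1, fun h0 => one_ne_zero (congrFun h0 0), ?_⟩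
      rw [hz, Matrix.vecMul_zero]
    right
    obtain ⟨a, b, hab⟩ : ∃ a b, mat p S z a b ≠ 0 := by
      by_contra hcon
      push Not at hcon
      exact hz (by ext i j; exact hcon i j)
    refine ⟨w, hw, fun i => (mat p S z a b)⁻¹ * ((w a : ℂ) * (if i = b then 1 else 0) - (w b : ℂ) * (if i = a then 1 else 0)), ?_⟩
    have h3 : ∀ r t u, mat p S z r t * (w u : ℂ) + mat p S z t u * (w r : ℂ) + mat p S z u r * (w t : ℂ) = 0 := by
      intro r t u
      rw [mat, mat, mat, Finset.sum_mul, Finset.sum_mul, Finset.sum_mul, ← Finset.sum_add_distrib,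
        ← Finset.sum_add_distrib]
      refine Finset.sum_eq_zero fun k _ => ?_
      have h4 := three (A := SQ k) (fun i j => by simp only [hSQ]; rw [hSk k i j]; push_cast; ring) (hwS k) r t u
      have h5 : (S k r t : ℂ) * (w u : ℂ) + (S k t u : ℂ) * (w r : ℂ) + (S k u r : ℂ) * (w t : ℂ) = 0 := by
        exact_mod_cast congrArg (fun t : ℚ => (t : ℂ)) h4
      linear_combination (v k) * h5
    funext r
    rw [Matrix.mulVec, dotProduct]
    have h6 : ∑ i, mat p S z r i * ((mat p S z a b)⁻¹ * ((w a : ℂ) * (if i = b then 1 else 0) -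
        (w b : ℂ) * (if i = a then 1 else 0))) = (mat p S z a b)⁻¹ * (mat p S z r b * w a - mat p S z r a * w b) := by
      simp only [mul_sub, Finset.sum_sub_distrib, mul_ite, mul_one, mul_zero, Finset.sum_ite_eq', Finset.mem_univ, if_true]
      ring
    rw [h6, inv_mul_eq_iff_eq_mul₀ hab]
    have h7 := h3 r b a
    rw [hM b a, hM a r] at h7
    linear_combination h7

end Pool.Agent.Results.MP_3e7261_nt.ApproximationsOfAllNumbers
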